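import Pool.Agent.K1H76.DK.Stm

/-!
# Project DK, piece UP
-/

set_option autoImplicit false

namespace Pool.Agent.K1H66.DK

open Finset Filter Topology Pool.Agent.K1H76.DK

/-- the integers prime to `t` in an interval whose length is a multiple of `t` -/
theorem cop_count (t q : ℕ) :
    ((Ico 1 (1 + t * q)).filter (fun x => t.Coprime x)).card = t.totient * q := by
  induction q with
  | zero => simp
  | succ q ih =>
    have h1 : Ico 1 (1 + t * (q + 1)) = Ico 1 (1 + t * q) ∪ Ico (1 + t * q) (1 + t * q + t) := by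
      rw [Ico_union_Ico_eq_Ico (by omega) (by omega)]
      congr 1
      ring
    have h2 : Disjoint ((Ico 1 (1 + t * q)).filter (fun x => t.Coprime x))
        ((Ico (1 + t * q) (1 + t * q + t)).filter (fun x => t.Coprime x)) :=
      disjoint_filter_filter (Ico_disjoint_Ico_consecutive _ _ _)
    rw [h1, filter_union, card_union_of_disjoint h2, ih, Nat.filter_coprime_Ico_eq_totient]
    ring

theorem key (k t n : ℕ) (ht : 1 ≤ t) (hk : k < t.divisors.card) (A : Finset ℕ)
    (hA : A ⊆ Icc 1 n) (hAd : Admissible k A) :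
    A.card + ((Icc 1 (n / t)).filter (fun x => t.Coprime x)).card ≤ n := by
  classical
  have hex : ∀ u ∈ (Icc 1 (n / t)).filter (fun x => t.Coprime x), ∃ d, d ∣ t ∧ u * d ∉ A := by
    intro u hu
    rw [mem_filter, mem_Icc] at hu
    by_contra hno
    have hall : ∀ d, d ∣ t → u * d ∈ A := fun d hd => by
      by_contra h
      exact hno ⟨d, hd, h⟩
    have h1 := hAd (u * t) (hall t dvd_rfl)
    have h2 : (t.divisors.erase t).image (fun d => u * d) ⊆
        A.filter (fun b => b ≠ u * t ∧ b ∣ u * t) := by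
      intro b hb
      obtain ⟨d, hd, rfl⟩ := mem_image.1 hb
      rw [mem_erase, Nat.mem_divisors] at hd
      rw [mem_filter]
      refine ⟨hall d hd.2.1, fun h => hd.1 ?_, Nat.mul_dvd_mul_left u hd.2.1⟩
      exact Nat.eq_of_mul_eq_mul_left (by omega) h
    have h3 := card_le_card h2
    rw [card_image_of_injective _ (fun x y h => Nat.eq_of_mul_eq_mul_left (by omega) h),
      card_erase_of_mem (Nat.mem_divisors_self t (by omega))] at h3
    omega
  choose! g hg1 hg2 using hex
  have hinj : ((Icc 1 (n / t)).filter (fun x => t.Coprime x)).card ≤ (Icc 1 n \ A).card := by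
    refine card_le_card_of_injOn (fun u => u * g u) ?_ ?_
    · intro u hu
      have hu' := mem_coe.1 hu
      have h1 := hg1 u hu'
      have h2 := hg2 u hu'
      rw [mem_filter, mem_Icc] at hu'
      refine mem_coe.2 (mem_sdiff.2 ⟨mem_Icc.2 ⟨?_, ?_⟩, h2⟩)
      · exact Nat.mul_pos (by omega) (Nat.pos_of_dvd_of_pos h1 (by omega))
      · calc u * g u ≤ (n / t) * t := Nat.mul_le_mul hu'.1.2 (Nat.le_of_dvd (by omega) h1)
          _ ≤ n := Nat.div_mul_le_self n t
    · intro u hu u' hu' huu
      have hu1 := mem_coe.1 hu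
      have hu2 := mem_coe.1 hu'
      have h1 := hg1 u hu1
      have h2 := hg1 u' hu2
      rw [mem_filter] at hu1 hu2
      have h3 : u * g u = u' * g u' := huu
      have h4 : u ∣ u' := by
        have h5 : u ∣ u' * g u' := ⟨g u, h3.symm⟩
        exact (Nat.Coprime.coprime_dvd_right h2 hu1.2.symm).dvd_of_dvd_mul_right h5
      have h5 : u' ∣ u := by
        have h6 : u' ∣ u * g u := ⟨g u', h3⟩
        exact (Nat.Coprime.coprime_dvd_right h1 hu2.2.symm).dvd_of_dvd_mul_right h6
      exact Nat.dvd_antisymm h4 h5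
  have h7 := card_sdiff_add_card_inter (Icc 1 n) A
  rw [inter_eq_right.2 hA, Nat.card_Icc] at h7
  omega

theorem t_UP : S_UP := by
  classical
  intro k t c ht hk hc
  have hF : ∀ n : ℕ, F k n + t.totient * (n / t / t) ≤ n := by
    intro n
    have h1 : t.totient * (n / t / t) ≤ ((Icc 1 (n / t)).filter (fun x => t.Coprime x)).card := by
      rw [← cop_count]
      refine card_le_card (filter_subset_filter _ ?_)
      intro x hx
      rw [mem_Ico] at hx
      rw [mem_Icc]
      have := Nat.mul_div_le (n / t) t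
      omega
    have h2 : F k n ≤ n - ((Icc 1 (n / t)).filter (fun x => t.Coprime x)).card := by
      unfold F
      refine Finset.sup_le fun A hA => ?_
      rw [mem_filter, mem_powerset] at hA
      have := key k t n ht hk A hA.1 hA.2
      omega
    have h3 : ((Icc 1 (n / t)).filter (fun x => t.Coprime x)).card ≤ n := by
      have h4 := card_filter_le (Icc 1 (n / t)) (fun x => t.Coprime x)
      rw [Nat.card_Icc] at h4
      have h5 := Nat.div_le_self n t
      omega
    omega
  have htr : (0 : ℝ) < t := by exact_mod_cast ht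
  have hle : ∀ᶠ n : ℕ in atTop, (F k n : ℝ) / n ≤
      (1 - (t.totient : ℝ) / (t : ℝ) ^ 2) + (t.totient : ℝ) / n := by
    filter_upwards [eventually_ge_atTop 1] with n hn
    have hn0 : (0 : ℝ) < n := by exact_mod_cast hn
    have h1 : (F k n : ℝ) + (t.totient : ℝ) * ((n / t / t : ℕ) : ℝ) ≤ n := by exact_mod_cast hF n
    have h2 : (n : ℝ) / (t : ℝ) ^ 2 - 1 ≤ ((n / t / t : ℕ) : ℝ) := by
      rw [Nat.div_div_eq_div_mul, ← pow_two]
      have h3 : n < t ^ 2 * (n / t ^ 2 + 1) := Nat.lt_mul_div_succ n (by positivity)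
      have h4 : (n : ℝ) < (t : ℝ) ^ 2 * (((n / t ^ 2 : ℕ) : ℝ) + 1) := by exact_mod_cast h3
      have h5 : (n : ℝ) / (t : ℝ) ^ 2 < ((n / t ^ 2 : ℕ) : ℝ) + 1 := by
        rw [div_lt_iff₀ (by positivity)]
        linarith
      linarith
    rw [div_le_iff₀ hn0]
    have h3 : (t.totient : ℝ) * ((n : ℝ) / (t : ℝ) ^ 2 - 1) ≤
        (t.totient : ℝ) * ((n / t / t : ℕ) : ℝ) := by gcongr
    have h4 : ((1 - (t.totient : ℝ) / (t : ℝ) ^ 2) + (t.totient : ℝ) / n) * n =
        n - (t.totient : ℝ) * ((n : ℝ) / (t : ℝ) ^ 2 - 1) := by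
      field_simp
      ring
    rw [h4]
    linarith
  have hlim : Tendsto (fun n : ℕ => (1 - (t.totient : ℝ) / (t : ℝ) ^ 2) + (t.totient : ℝ) / n)
      atTop (𝓝 ((1 - (t.totient : ℝ) / (t : ℝ) ^ 2) + 0)) :=
    tendsto_const_nhds.add (tendsto_const_div_atTop_nhds_zero_nat _)
  have h := le_of_tendsto_of_tendsto hc hlim hle
  linarith

end Pool.Agent.K1H66.DK
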